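import Pool.Agent.H97.SDQ.Targets

/-!
Row PHQ of the board `szq_modules` (project SD on `MP_c62aed_lc`): a phase of the game.
-/

set_option autoImplicit false

open Finset

namespace Pool.Agent.H74.SDQ

open Pool.Agent.H97.SD Pool.Agent.H97.SDQ

theorem uq_succ {N a b : ℕ} (line : ℕ → Clause (BV N a b)) (τ : ℕ → ℕ × Finset (BV N a b))
    (t : ℕ) : UQ line τ (t + 1) =
      UQ line τ t ∪ Hq (vq (line (τ (t + 1)).1) (τ (t + 1)).2) := by
  unfold UQ
  rw [Finset.range_add_one (n := t + 1), Finset.biUnion_insert, Finset.union_comm]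

theorem uq_congr {N a b : ℕ} (line : ℕ → Clause (BV N a b)) (τ τ' : ℕ → ℕ × Finset (BV N a b))
    (t : ℕ) (h : ∀ s, s ≤ t → τ s = τ' s) : UQ line τ t = UQ line τ' t := by
  unfold UQ
  apply Finset.biUnion_congr rfl
  intro s hs
  rw [Finset.mem_range] at hs
  rw [h s (by omega)]

theorem flip_of {N a b : ℕ} {α x : BV N a b → Bool} {O : Finset (Fin N)}
    {D : Clause (BV N a b)} (h1 : OneFlip α x O) (h2 : Falsified D x) :
    ∀ l ∈ D, l.1.1 ∉ O → α l.1 ≠ l.2 := by
  intro l hl hO
  rw [← h1.1 l.1 hO]
  exact h2 l hl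

theorem often_cons_sub {V : Type} [DecidableEq V] [Fintype V] (R : ℕ) (v : V) (l : List V) :
    often R l ⊆ often R (v :: l) ∧ often R (v :: l) ⊆ insert v (often R l) := by
  constructor
  · intro w hw
    rw [often, Finset.mem_filter] at hw ⊢
    refine ⟨Finset.mem_univ _, ?_⟩
    rw [List.count_cons]
    omega
  · intro w hw
    rw [often, Finset.mem_filter] at hw
    rw [Finset.mem_insert]
    by_cases h : w = v
    · exact Or.inl h
    · right
      rw [often, Finset.mem_filter]
      refine ⟨Finset.mem_univ _, ?_⟩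
      have h2 := hw.2
      rw [List.count_cons_of_ne (Ne.symm h)] at h2
      exact h2

theorem phi_cons {V : Type} [DecidableEq V] [Fintype V] (R : ℕ) (v : V) (l : List V)
    (h : v ∉ often R l) : phi R (v :: l) = phi R l + 1 := by
  unfold phi
  rw [← Finset.add_sum_erase _ _ (Finset.mem_univ v),
    ← Finset.add_sum_erase _ (fun w => min (l.count w) (R + 1)) (Finset.mem_univ v)]
  have h1 : ¬ R < l.count v := fun hc => h (by
    rw [often, Finset.mem_filter]
    exact ⟨Finset.mem_univ _, hc⟩)
  have h2 : ∑ w ∈ (univ : Finset V).erase v, min ((v :: l).count w) (R + 1) =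
      ∑ w ∈ (univ : Finset V).erase v, min (l.count w) (R + 1) := by
    refine Finset.sum_congr rfl fun w hw => ?_
    rw [Finset.mem_erase] at hw
    rw [List.count_cons_of_ne (Ne.symm hw.1)]
  rw [h2, List.count_cons_self]
  omega

theorem eq_of_between {V : Type} [DecidableEq V] {v : V} {Q Q' : Finset V} (h1 : Q ⊆ Q')
    (h2 : Q' ⊆ insert v Q) : (if decide (v ∈ Q') then insert v Q else Q) = Q' := by
  by_cases hv : v ∈ Q'
  · rw [if_pos (by simpa using hv)]
    refine Finset.Subset.antisymm ?_ h2
    intro w hw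
    rcases Finset.mem_insert.1 hw with h | h
    · rw [h]; exact hv
    · exact h1 h
  · rw [if_neg (by simpa using hv)]
    refine Finset.Subset.antisymm h1 ?_
    intro w hw
    rcases Finset.mem_insert.1 (h2 hw) with h | h
    · rw [h] at hw
      exact absurd hw hv
    · exact h

theorem pf_PHQ (hCLO : P_CLO) (hTRC : P_TRC) (hSTQ : P_STQ) (hFRQ : P_FRQ) : P_PHQ := by
  intro N M k a b σ h r p R d L S r₀ i line rule α x O l hr hE2 hα hRef hd hiS hP hInv
  set u₀ : ℕ × Finset (BV N a b) := (i, often R l) with hu₀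
  set B₀ : Finset (Fin N) := Hq (vq (line i) (often R l)) with hB₀
  have key : ∀ t : ℕ, t ≤ L →
      (∃ (χ : BV N a b → Bool) (β γ : ℕ → Bool) (t : ℕ) (O' : Finset (Fin N)), t ≤ L ∧
        (univ.filter (fun v => χ v = true)).card ≤ d ∧ O'.card ≤ O.card + p ∧
        CompQ α χ line (trj rule S χ u₀ β γ) t O' ∧
        p ≤ (cl σ r (UQ line (trj rule S χ u₀ β γ) t ∪ O')).card) ∨
      ∃ (β γ : ℕ → Bool) (y : BV N a b → Bool) (O' : Finset (Fin N)) (i' : ℕ)
        (l' : List (BV N a b)), trj rule S y u₀ β γ t = (i', often R l') ∧ i' < S ∧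
        Path rule r₀ i' l' ∧ phi R l + t ≤ phi R l' ∧
        O'.card + (cl σ r (B₀ ∪ O)).card ≤
          O.card + (cl σ r (UQ line (trj rule S y u₀ β γ) t ∪ O')).card ∧
        InvQ σ h r p α y O' (UQ line (trj rule S y u₀ β γ) t) (line i') (often R l') ∧
        CompQ α y line (trj rule S y u₀ β γ) t O' := by
    intro t
    induction t with
    | zero =>
      intro _
      right
      have h0 : UQ line (trj rule S x u₀ (fun _ => false) (fun _ => false)) 0 = B₀ := by
        unfold UQ
        simp [trj, hu₀, hB₀]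
      refine ⟨fun _ => false, fun _ => false, x, O, i, l, rfl, hiS, hP, le_rfl, ?_, ?_, ?_⟩
      · rw [h0]
      · rw [h0]; exact hInv
      · intro s hs
        obtain rfl : s = 0 := by omega
        refine ⟨flip_of hInv.2.1 hInv.1, fun v _ hv => ?_⟩
        rw [hInv.2.1.1 v hv]
    | succ t ih =>
      intro ht
      rcases ih (by omega) with h1 | ⟨β, γ, y, O', i₁, l₁, c1, c2, c3, c4, c5, c6, c7⟩
      · exact Or.inl h1
      obtain ⟨l', f1, f2, f3, f4, f5, v, j, k', f6, f7⟩ := hFRQ N M k a b σ h r p R S r₀ i₁ line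
        rule α y O' (UQ line (trj rule S y u₀ β γ) t) l₁ hr hα hRef c2 c3 c6
      set i' : ℕ := frun rule S (often R l₁) y i₁ with hi'
      have hcor := hRef.2.2 i' f1
      rw [f6] at hcor
      obtain ⟨q1, q2, q3, q4⟩ := hcor
      set c : ℕ := if y v then k' else j with hc
      have hcS : c < S := by
        rw [hc]
        split_ifs <;> omega
      have hcP : Path rule r₀ c (v :: l') := by
        rw [hc]
        by_cases hv : y v = true
        · rw [if_pos hv]
          exact Path.right f2 f6
        · rw [if_neg hv]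
          exact Path.left f2 f6
      have hcC : line c ⊆ insert (v, !(y v)) (line i') := by
        rw [hc]
        by_cases hv : y v = true
        · rw [if_pos hv, hv]
          exact q4
        · rw [if_neg hv, Bool.eq_false_iff.2 hv]
          exact q3
      obtain ⟨g1, g2⟩ := often_cons_sub R v l'
      rw [f3] at g1 g2
      have g3 : phi R (v :: l') = phi R l' + 1 := phi_cons R v l' (by rw [f3]; exact f7)
      set Q' : Finset (BV N a b) := often R (v :: l') with hQ'
      obtain ⟨s1, s2⟩ := hSTQ N M k a b σ h r p α y O' (UQ line (trj rule S y u₀ β γ) t)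
        (line i') (line c) v (often R l₁) Q' hE2 f5 hcC g1 g2
      set β' : ℕ → Bool := Function.update β t (y v) with hβ'
      set γ' : ℕ → Bool := Function.update γ t (decide (v ∈ Q')) with hγ'
      have hb : ∀ s, s < t → β s = β' s ∧ γ s = γ' s := by
        intro s hs
        rw [hβ', hγ', Function.update_of_ne (by omega), Function.update_of_ne (by omega)]
        exact ⟨rfl, rfl⟩
      have e1 : ∀ s, s ≤ t → trj rule S y u₀ β' γ' s = trj rule S y u₀ β γ s := fun s hs =>
        (hTRC (BV N a b) rule S t y y u₀ β β' γ γ' hb (fun _ _ => rfl) s hs).1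
      have e2 : trj rule S y u₀ β' γ' (t + 1) = (c, Q') := by
        change mst rule (frun rule S (trj rule S y u₀ β' γ' t).2 y (trj rule S y u₀ β' γ' t).1)
          (trj rule S y u₀ β' γ' t).2 (β' t) (γ' t) = _
        rw [e1 t le_rfl, c1]
        dsimp only
        rw [← hi', mst, f6, hβ', hγ', Function.update_self, Function.update_self]
        dsimp only
        rw [eq_of_between g1 g2]
      have e3 : UQ line (trj rule S y u₀ β' γ') (t + 1) =
          UQ line (trj rule S y u₀ β γ) t ∪ Hq (vq (line c) Q') := by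
        rw [uq_succ, e2, uq_congr line _ _ t e1]
      -- a new assignment which agrees with `y` on `Q'`
      have e4 : ∀ χ : BV N a b → Bool, (∀ w ∈ Q', y w = χ w) → ∀ s, s ≤ t + 1 →
          trj rule S χ u₀ β' γ' s = trj rule S y u₀ β' γ' s ∧
            (trj rule S y u₀ β' γ' s).2 ⊆ Q' := by
        intro χ hχ s hs
        have h5 := hTRC (BV N a b) rule S (t + 1) y χ u₀ β' β' γ' γ' (fun _ _ => ⟨rfl, rfl⟩)
          (by rw [e2]; exact hχ) s hs
        rw [e2] at h5
        exact h5
      have e5 : ∀ χ : BV N a b → Bool, (∀ w ∈ Q', y w = χ w) →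
          UQ line (trj rule S χ u₀ β' γ') (t + 1) =
          UQ line (trj rule S y u₀ β γ) t ∪ Hq (vq (line c) Q') := by
        intro χ hχ
        rw [← e3]
        exact uq_congr line _ _ _ fun s hs => (e4 χ hχ s hs).1
      have hcomp : ∀ (χ z : BV N a b → Bool) (O'' : Finset (Fin N)), (∀ w ∈ Q', y w = χ w) →
          O' ⊆ O'' → OneFlip α z O'' → Falsified (line c) z → (∀ w ∈ Q', w.1 ∉ O'' → z w = χ w) →
          CompQ α χ line (trj rule S χ u₀ β' γ') (t + 1) O'' := by
        intro χ z O'' hχ hOO hf hfa hz s hs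
        obtain ⟨k1, k2⟩ := e4 χ hχ s hs
        rw [k1]
        constructor
        · intro l hl hO
          by_cases hst : s = t + 1
          · rw [hst, e2] at hl
            exact flip_of hf hfa l hl hO
          · rw [e1 s (by omega)] at hl
            exact (c7 s (by omega)).1 l hl fun hh => hO (hOO hh)
        · intro w hw hO
          rw [← hf.1 w hO]
          exact hz w (k2 hw) hO
      have hcardO : O'.card ≤ O.card + p := by
        have := c6.2.2.2.1
        omega
      rcases s2 with s2 | ⟨x', O'', t1, t2, t3, t4⟩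
      · left
        set χ : BV N a b → Bool := fun w => if w ∈ Q' then y w else false with hχdef
        have hχ : ∀ w ∈ Q', y w = χ w := fun w hw => by
          rw [hχdef]
          dsimp only
          rw [if_pos hw]
        refine ⟨χ, β', γ', t + 1, O', ht, ?_, hcardO,
          hcomp χ y O' hχ (Finset.Subset.refl _) c6.2.1 s1 fun w hw _ => hχ w hw, ?_⟩
        · refine le_trans (Finset.card_le_card ?_) (hd c (v :: l') hcP)
          intro w hw
          rw [Finset.mem_filter] at hw
          by_contra hcon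
          have h5 := hw.2
          rw [hχdef] at h5
          dsimp only at h5
          rw [if_neg hcon] at h5
          exact Bool.false_ne_true h5
        · rw [e5 χ hχ]
          exact s2
      · right
        have hx' : ∀ w ∈ Q', y w = x' w := fun w hw => (t3 w hw).symm
        refine ⟨β', γ', x', O'', c, v :: l', ?_, hcS, hcP, by omega, ?_, ?_, ?_⟩
        · rw [(e4 x' hx' (t + 1) le_rfl).1, e2]
        · rw [e5 x' hx']
          omega
        · rw [e5 x' hx']
          exact t4
        · exact hcomp x' x' O'' hx' t1 t4.2.1 t4.1 fun _ _ _ => rfl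
  rcases key L le_rfl with h1 | ⟨β, γ, y, O', i', l', c1, c2, c3, c4, c5, c6, c7⟩
  · exact Or.inl h1
  right
  have h1 : cl σ r (Hq (vq (line i') (often R l')) ∪ O') ⊆
      cl σ r (UQ line (trj rule S y u₀ β γ) L ∪ O') :=
    (hCLO N M k σ r).2.1 _ _ (Finset.union_subset_union_left c6.2.2.1)
  refine ⟨i', l', y, O', c2, c3, c4, ?_, c6.1, c6.2.1, Finset.Subset.refl _, ?_, ?_⟩
  · have := c6.2.2.2.1
    omega
  · exact (Finset.card_le_card h1).trans_lt c6.2.2.2.1
  · intro c hc
    exact c6.2.2.2.2 c (h1 hc)

end Pool.Agent.H74.SDQ
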