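import Pool.Agent.H97.SDQ.Targets

/-!
Row TRC of the board `szq_modules` (project SD on `MP_c62aed_lc`): the simulated path.
-/

set_option autoImplicit false

open Finset

namespace Pool.Agent.H74.SDQ

open Pool.Agent.H97.SD Pool.Agent.H97.SDQ

theorem mst_mono {V : Type} [DecidableEq V] (rule : ℕ → Rule V) (i : ℕ) (Q : Finset V)
    (b g : Bool) : Q ⊆ (mst rule i Q b g).2 := by
  unfold mst
  cases rule i with
  | ax => exact Finset.Subset.refl _
  | weak j => exact Finset.Subset.refl _
  | res x j k =>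
    dsimp only
    split_ifs
    · exact Finset.subset_insert _ _
    · exact Finset.Subset.refl _

theorem trj_mono {V : Type} [DecidableEq V] (rule : ℕ → Rule V) (S : ℕ) (χ : V → Bool)
    (u : ℕ × Finset V) (β γ : ℕ → Bool) {s t : ℕ} (h : s ≤ t) :
    (trj rule S χ u β γ s).2 ⊆ (trj rule S χ u β γ t).2 := by
  induction t, h using Nat.le_induction with
  | base => exact Finset.Subset.refl _
  | succ t _ ih => exact ih.trans (mst_mono _ _ _ _ _)

theorem fstep_congr {V : Type} [DecidableEq V] (rule : ℕ → Rule V) (Q : Finset V)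
    (χ χ' : V → Bool) (h : ∀ v ∈ Q, χ v = χ' v) : fstep rule Q χ' = fstep rule Q χ := by
  funext i
  unfold fstep
  cases rule i with
  | ax => rfl
  | weak j => rfl
  | res x j k =>
    dsimp only
    by_cases hx : x ∈ Q
    · rw [if_pos hx, if_pos hx, h x hx]
    · rw [if_neg hx, if_neg hx]

theorem frun_congr {V : Type} [DecidableEq V] (rule : ℕ → Rule V) (S : ℕ) (Q : Finset V)
    (χ χ' : V → Bool) (h : ∀ v ∈ Q, χ v = χ' v) (i : ℕ) :
    frun rule S Q χ' i = frun rule S Q χ i := by
  unfold frun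
  rw [fstep_congr rule Q χ χ' h]

theorem pf_TRC : P_TRC := by
  intro V _ rule S t χ χ' u β β' γ γ' hβ hχ s
  induction s with
  | zero =>
    intro _
    exact ⟨rfl, trj_mono rule S χ u β γ (Nat.zero_le t)⟩
  | succ s ih =>
    intro hs
    obtain ⟨h1, h2⟩ := ih (by omega)
    refine ⟨?_, trj_mono rule S χ u β γ hs⟩
    obtain ⟨h3, h4⟩ := hβ s (by omega)
    change mst rule (frun rule S (trj rule S χ' u β' γ' s).2 χ' (trj rule S χ' u β' γ' s).1)
      (trj rule S χ' u β' γ' s).2 (β' s) (γ' s) = mst rule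
      (frun rule S (trj rule S χ u β γ s).2 χ (trj rule S χ u β γ s).1)
      (trj rule S χ u β γ s).2 (β s) (γ s)
    rw [h1, ← h3, ← h4, frun_congr rule S _ χ χ' fun v hv => hχ v (h2 hv)]

end Pool.Agent.H74.SDQ
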